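import Pool.Agent.L0h31.HS.F4

/-!
# The Hilbert-Smith conjecture for Hölder and fractional Sobolev actions

Let `n ≥ 2` and let `X` be a metric space in which the points with a neighbourhood bi-Lipschitz
equivalent to an open subset of `ℝⁿ` form a dense connected set (for example an Alexandrov space
of dimension `n`). Let a locally compact group `G` act faithfully and continuously on `X`, and let
`V` be a neighbourhood of `1`. Suppose that every `g` in `G` whose powers have compact closure
contained in `V` has a power `h = g^M`, `M ≠ 0`, which satisfies one of the following conditions at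
each regular point `x` whose orbit under the powers of `g` is infinite, outside a countable union
of closed totally disconnected sets:

* `h` is Hölder at the single point `x` with some exponent bigger than `(n - 1) / (n + 1)`, tested
  only against points of infinite orbit;
* `h` is near `x` of the fractional Sobolev (Slobodeckij) class `W^{s,q}` for some `q ≥ 1` and `s`
  with `s * min q (n + 1) > n - 1`;
* `h` is near `x` of class `W^{1,q}` for some `q > n - 1`;
* `h` has small images of balls near `x`, measured by sums of the powers `n + 1` of diameters.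

The powers, sets, exponents, constants and neighbourhoods depend on the element (and on the point)
in an arbitrary way. Then `G` is a Lie group.

The starting library has this for the exponent `(n - 1) / n` and the powers `n` of diameters, and
Maleshich (1997) for actions which are uniformly Hölder with an exponent above `n / (n + 2)`.

Proof (files in `Pool/Agent/L0h31/HS/`; the new part is in `B1`-`B6` and `F1`-`F3`). Let `p`-adic
integers act. Average over the group a map `F` close to the identity and one more function `h`. If
the sums of the powers `n + 1` of the diameters of the images of the balls of radius `r` are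
`o(1/r)`, then the image under `(F, h)` of almost every hyperplane parallel to the coordinate
hyperplanes is a null set of `ℝ^{n+1}`. For almost all `y` the part of the fibre of `F` over `y`
which lies on a dense countable family of such hyperplanes has then a totally disconnected image in
the orbit space, and the rest of the fibre is coded by the cells of the grids. This gives on the
fibre a continuous map to the unit circle on which the group acts through a nontrivial finite
quotient by rotations, and the circle criterion of the starting library gives a contradiction.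
The Baire category arguments which allow arbitrary dependence on the group element and on the point
are those of the starting library. The fractional Sobolev condition gives small sums, since
almost all spheres have small oscillation (a trace inequality) and a homeomorphism is monotone.
-/

set_option autoImplicit false

namespace Pool.Agent.Results.MP_afaf30_gt.SlicesHolderSlobodeckij

open MeasureTheory Set Metric Filter Topology
open scoped ENNReal

/-- The points in the domain of a bi-Lipschitz chart with values in Euclidean `n`-space. -/
def Reg (n : ℕ) (X : Type) [MetricSpace X] : Set X :=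
  {x | ∃ φ : OpenPartialHomeomorph X (EuclideanSpace ℝ (Fin n)),
    (∃ L : ℝ, ∀ a ∈ φ.source, ∀ b ∈ φ.source,
      dist (φ a) (φ b) ≤ L * dist a b ∧ dist a b ≤ L * dist (φ a) (φ b)) ∧ x ∈ φ.source}

/-- Near `x` the map `f` is of the Slobodeckij class `W^{s,q}` for some `q ≥ 1` and `s` with
`s * min q (n + 1) > n - 1`: the double integral of `d(fa, fb)^q / d(a, b)^(n + s q)` over a
neighbourhood, for the `n`-dimensional Hausdorff measure, is finite. -/
def FractionalSobolevNear (n : ℕ) {X : Type} [MetricSpace X] [MeasurableSpace X] [BorelSpace X]
    (f : X → X) (x : X) : Prop :=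
  ∃ W ∈ 𝓝 x, ∃ s q : ℝ, 1 ≤ q ∧ (n : ℝ) - 1 < s * min q (n + 1) ∧
    ∫⁻ a in W, ∫⁻ b in W, edist (f a) (f b) ^ q / edist a b ^ ((n : ℝ) + s * q)
      ∂(Measure.hausdorffMeasure (n : ℝ)) ∂(Measure.hausdorffMeasure (n : ℝ)) < ∞

/-- Near `x` the map `f` is of class `W^{1,q}` for some `q > n - 1`, in the form of Hajlasz: in a
neighbourhood `d(fa, fb) ≤ d(a, b) (h(a) + h(b))`, and `h^q` has finite integral for the
`n`-dimensional Hausdorff measure. -/
def SobolevNear (n : ℕ) {X : Type} [MetricSpace X] [MeasurableSpace X] [BorelSpace X]
    (f : X → X) (x : X) : Prop :=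
  ∃ W ∈ 𝓝 x, ∃ q : ℝ, (n : ℝ) - 1 < q ∧ ∃ h : X → ℝ≥0∞, Measurable h ∧
    (∀ a ∈ W, ∀ b ∈ W, edist (f a) (f b) ≤ edist a b * (h a + h b)) ∧
    ∫⁻ a in W, h a ^ q ∂(Measure.hausdorffMeasure (n : ℝ)) < ∞

/-- For a compact neighbourhood `W` of `x` the sum of `diam (f (B(a, c r) ∩ W))^(n + 1)` over
`r`-separated points `a` of `W` is at most `N r^{-1 + 1/N}`, for some `N` depending on `c`. -/
def SmallImagesNear (n : ℕ) {X : Type} [MetricSpace X] (f : X → X) (x : X) : Prop :=
  ∃ W ∈ 𝓝 x, IsCompact W ∧ ∀ c : ℕ, ∃ N : ℕ, ∀ r : ℝ, 0 < r → r ≤ 1 → ∀ A : Finset X,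
    (∀ a ∈ A, a ∈ W) → (∀ a ∈ A, ∀ b ∈ A, a ≠ b → r ≤ dist a b) →
    ∑ a ∈ A, Metric.diam (f '' (closedBall a (c * r) ∩ W)) ^ (n + 1) ≤
      N * r ^ (1 / (N : ℝ) - 1)

/-- No positive power of `g` fixes `x`, that is, the orbit of `x` under the powers of `g` is
infinite. -/
def InfiniteOrbit {G X : Type} [Monoid G] [MulAction G X] (g : G) (x : X) : Prop :=
  ∀ m : ℕ, 0 < m → g ^ m • x ≠ x

/-- The element `g` is Hölder at the point `x` with some exponent `α > (n - 1) / (n + 1)`, tested
against the points of infinite orbit: `d(gy, gx) ≤ C d(y, x)^α` for the points `y` of infinite orbit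
with `d(y, x) < δ`. -/
def HolderAt (n : ℕ) {G X : Type} [MetricSpace X] [Monoid G] [MulAction G X] (g : G) (x : X) :
    Prop :=
  ∃ α C δ : ℝ, ((n : ℝ) - 1) / (n + 1) < α ∧ 0 < δ ∧
    ∀ y, InfiniteOrbit g y → dist y x < δ → dist (g • y) (g • x) ≤ C * dist y x ^ α

/-- There are countably many closed totally disconnected sets such that one of the four regularity
conditions holds at each regular point of infinite orbit outside these sets. -/
def Regular (n : ℕ) (X : Type) [MetricSpace X] [MeasurableSpace X] [BorelSpace X] {G : Type}
    [Group G] [MulAction G X] (g : G) : Prop :=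
  ∃ T : ℕ → Set X, (∀ i, IsClosed (T i)) ∧ (∀ i, IsTotallyDisconnected (T i)) ∧
    ∀ x ∈ Reg n X, InfiniteOrbit g x → (∀ i, x ∉ T i) →
      HolderAt n g x ∨ FractionalSobolevNear n (fun x : X => g • x) x ∨
        SobolevNear n (fun x : X => g • x) x ∨ SmallImagesNear n (fun x : X => g • x) x

/-- The powers of `g` have compact closure contained in `V`. -/
def SmallPowers {G : Type} [Group G] [TopologicalSpace G] (V : Set G) (g : G) : Prop :=
  IsCompact (closure (Subgroup.zpowers g : Set G)) ∧ closure (Subgroup.zpowers g : Set G) ⊆ V

/-- The Hilbert-Smith conjecture for actions all of whose small elements have a nonzero power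
which is, along the infinite orbits and off a countable union of closed totally disconnected sets,
pointwise Hölder with exponent above `(n - 1) / (n + 1)` or of class `W^{s,q}` near the point with
`s * min q (n + 1) > n - 1` (or `s = 1` and `q > n - 1`). -/
theorem result :
    ∀ (n : ℕ), 2 ≤ n → ∀ (X : Type) [MetricSpace X] [MeasurableSpace X] [BorelSpace X],
      Dense (Reg n X) → IsPreconnected (Reg n X) →
      ∀ (G : Type) [Group G] [TopologicalSpace G] [IsTopologicalGroup G] [LocallyCompactSpace G]
        [MulAction G X] [ContinuousSMul G X] [FaithfulSMul G X], ∀ V ∈ 𝓝 (1 : G),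
        (∀ g : G, SmallPowers V g → ∃ M : ℤ, M ≠ 0 ∧ Regular n X (g ^ M)) →
        ∃ (m : ℕ) (_ : ChartedSpace (EuclideanSpace ℝ (Fin m)) G),
          LieGroup (modelWithCornersSelf ℝ (EuclideanSpace ℝ (Fin m)))
            ((⊤ : ℕ∞) : WithTop ℕ∞) G := by
  intro n hn X _ _ _ hd hc G _ _ _ _ _ _ _ V hV hreg
  refine Pool.Agent.L0h31.HS.lie_inf hn hd hc hV fun g hg => ?_
  obtain ⟨M, hM, T, hT1, hT2, hT3⟩ := hreg g hg
  refine ⟨M, hM, T, hT1, hT2, fun x hx hxI hxT => ?_⟩
  rcases hT3 x hx hxI hxT with h | h | h | h
  · exact Or.inr h
  · exact Or.inl (Pool.Agent.L0h31.HS.en_frac_chart hn _ h)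
  · exact Or.inl (Pool.Agent.L0h31.HS.en_sob_chart hn _ h)
  · exact Or.inl (Pool.Agent.L0h31.HS.en_small_chart _ h)

end Pool.Agent.Results.MP_afaf30_gt.SlicesHolderSlobodeckij
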